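import Pool.Agent.W805.LR.Stm3
import Pool.Agent.W333.LR.PA
import Pool.Agent.W248.LR.PB

set_option autoImplicit false

namespace Pool.Agent.W174.LR.MC

open Finset Equiv Pool.Agent.W805.LR Pool.Agent.W248.LR

theorem main_damage' : S_damage := main_damage Pool.Agent.W333.LR.main_merge Pool.Agent.W333.LR.main_split

/-- splitting one cycle -/
theorem split_one {V : Type} [Fintype V] [DecidableEq V] {g : Perm V} {k : ℕ} {s : ℝ}
    (f : Fin (k + 1) → V) (h1 : ∀ a b, a ≠ b → ¬ g.SameCycle (f a) (f b))
    (h2 : ∀ a, s ≤ len g (f a)) (hs : 0 ≤ s) {x y : V} (hx : g.SameCycle (f 0) x)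
    (hy : g.SameCycle (f 0) y) (hxy : x ≠ y) (hn : ¬ near g (len g (f 0) / 4) x y) :
    manyCyc (swap x y * g) (k + 1 + 1) (s / 4) := by
  have hsame : g.SameCycle x y := hx.symm.trans hy
  obtain ⟨a1, a2, -, -⟩ := Pool.Agent.W333.LR.main_split V g x y hxy hsame
  have hl := h2 0
  have hl0 : 0 ≤ len g (f 0) := hs.trans hl
  have hd := (main_damage' V g x y (len g (f 0) / 4) (by linarith)).2
  have lx : len g x = len g (f 0) := len_congr hx.symm
  have ly : len g y = len g (f 0) := len_congr hy.symm
  set g' := swap x y * g with hg'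
  have mx : s / 4 ≤ len g' x := by
    by_contra hc
    exact hn (hd x (by linarith) (by linarith [not_le.1 hc]))
  have my : s / 4 ≤ len g' y := by
    by_contra hc
    exact hn (hd y (by linarith) (by linarith [not_le.1 hc]))
  have o1 : ∀ a : Fin k, ¬ g.SameCycle x (f a.succ) := fun a h =>
    h1 0 a.succ (Fin.succ_ne_zero a).symm (hx.trans h)
  have o2 : ∀ (a : Fin k) (z : V), g'.SameCycle (f a.succ) z ↔ g.SameCycle (f a.succ) z :=
    fun a z => a2 _ (o1 a) z
  have o3 : ∀ a : Fin k, len g' (f a.succ) = len g (f a.succ) := fun a => cnt_congr (o2 a)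
  have o4 : ∀ a : Fin k, ¬ g'.SameCycle x (f a.succ) := fun a h =>
    o1 a (((o2 a x).1 h.symm).symm)
  have o5 : ∀ a : Fin k, ¬ g'.SameCycle y (f a.succ) := fun a h =>
    o1 a (hsame.trans ((o2 a y).1 h.symm).symm)
  refine ⟨Fin.cons x (Fin.cons y fun a => f a.succ), ?_, ?_⟩
  · intro a
    refine Fin.cases ?_ (fun a' => ?_) a
    · intro b
      refine Fin.cases (fun h => absurd rfl h) (fun b' => ?_) b
      intro _
      refine Fin.cases ?_ (fun b'' => ?_) b'
      · simpa using a1
      · simpa using o4 b''
    · intro b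
      refine Fin.cases (fun _ => ?_) (fun b' => ?_) b
      · refine Fin.cases ?_ (fun a'' => ?_) a'
        · simpa using fun h => a1 (Perm.SameCycle.symm h)
        · simpa using fun h => o4 a'' (Perm.SameCycle.symm h)
      · intro hab
        have hab' : a' ≠ b' := fun h => hab (by rw [h])
        simp only [Fin.cons_succ]
        revert hab'
        refine Fin.cases ?_ (fun a'' => ?_) a'
        · refine Fin.cases (fun h => absurd rfl h) (fun b'' => ?_) b'
          intro _
          simpa using o5 b''
        · refine Fin.cases (fun _ => ?_) (fun b'' => ?_) b'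
          · simpa using fun h => o5 a'' (Perm.SameCycle.symm h)
          · intro hab'
            have : a''.succ ≠ b''.succ := hab'
            simp only [Fin.cons_succ]
            rw [o2]
            exact h1 _ _ this
  · intro a
    refine Fin.cases ?_ (fun a' => ?_) a
    · simpa using mx
    · refine Fin.cases ?_ (fun a'' => ?_) a'
      · simpa using my
      · simp only [Fin.cons_succ]
        rw [o3]
        have := h2 a''.succ
        linarith

theorem main : S_many := by
  intro V _ _ g k s hs hk hm
  classical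
  obtain ⟨k, rfl⟩ : ∃ k', k = k' + 1 := ⟨k - 1, by omega⟩
  obtain ⟨f, h1, h2⟩ := hm
  set l := len g (f 0) with hl
  have hls : s ≤ l := h2 0
  have hcard1 : ∀ x : V, cnt (fun y => y = x) = 1 := by
    intro x
    rw [cnt_eq, filter_eq' univ x]
    simp
  have key : ∀ x, g.SameCycle (f 0) x →
      l / 4 ≤ cnt fun y => x ≠ y ∧ manyCyc (swap x y * g) (k + 1 + 1) (s / 4) := by
    intro x hx
    have e1 : l ≤ cnt (fun y => y = x) + cnt (fun y => near g (l / 4) x y) +
        cnt (fun y => x ≠ y ∧ manyCyc (swap x y * g) (k + 1 + 1) (s / 4)) := by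
      have : l ≤ cnt (fun y => (y = x ∨ near g (l / 4) x y) ∨
          (x ≠ y ∧ manyCyc (swap x y * g) (k + 1 + 1) (s / 4))) := by
        refine cnt_mono fun y hy => ?_
        by_cases hyx : y = x
        · exact Or.inl (Or.inl hyx)
        · by_cases hn : near g (l / 4) x y
          · exact Or.inl (Or.inr hn)
          · right
            refine ⟨fun h => hyx h.symm, split_one f h1 h2 (by linarith) hx hy
              (fun h => hyx h.symm) hn⟩
      refine this.trans ((cnt_or_le _ _).trans ?_)
      gcongr
      exact cnt_or_le _ _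
    have e2 := main_near V g (l / 4) x (by linarith)
    rw [hcard1] at e1
    linarith
  have e3 : ∑ x, (if g.SameCycle (f 0) x then l / 4 else 0) ≤
      ∑ x, cnt fun y => x ≠ y ∧ manyCyc (swap x y * g) (k + 1 + 1) (s / 4) := by
    refine sum_le_sum fun x _ => ?_
    split_ifs with hx
    · exact key x hx
    · exact cnt_nonneg _
  refine le_trans ?_ e3
  have e4 : ∑ x, (if g.SameCycle (f 0) x then l / 4 else 0) = l * (l / 4) := by
    rw [hl]
    nth_rewrite 2 [len]
    unfold cnt
    rw [sum_mul]
    refine sum_congr rfl fun x _ => ?_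
    by_cases h : g.SameCycle (f 0) x <;> simp [h]
  rw [e4]
  nlinarith

end Pool.Agent.W174.LR.MC
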