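import Pool.Agent.W805.LR.Stm3

set_option autoImplicit false

namespace Pool.Agent.W174.LR.TI

open Finset Equiv Pool.Agent.W805.LR

section gen

variable {V : Type} [Fintype V] [DecidableEq V]

theorem conj_swap (σ : Perm V) (x y : V) (g : Perm V) :
    swap (σ x) (σ y) * (σ * g * σ⁻¹) = σ * (swap x y * g) * σ⁻¹ := by
  rw [swap_apply_apply]
  group

theorem ringSum_conj (σ : Perm V) (J : V → V → ℝ) (hJ : ∀ x y, J (σ x) (σ y) = J x y) (m : ℕ) :
    ∀ g : Perm V, ringSum J m (σ * g * σ⁻¹) = ringSum J m g := by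
  induction m with
  | zero =>
    intro g
    have : σ * g * σ⁻¹ = 1 ↔ g = 1 := by
      rw [mul_inv_eq_one, mul_eq_left]
    simp only [ringSum, this]
  | succ m ih =>
    intro g
    simp only [ringSum]
    rw [← Equiv.sum_comp σ]
    refine sum_congr rfl fun x _ => ?_
    rw [← Equiv.sum_comp σ]
    refine sum_congr rfl fun y _ => ?_
    rw [conj_swap, ih, hJ]

theorem stirMass_conj (σ : Perm V) (J : V → V → ℝ) (hJ : ∀ x y, J (σ x) (σ y) = J x y) (t : ℝ)
    (g : Perm V) : stirMass J t (σ * g * σ⁻¹) = stirMass J t g := by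
  unfold stirMass
  simp only [ringSum_conj σ J hJ]

theorem same_conj (σ g : Perm V) (u v : V) :
    (σ * g * σ⁻¹).SameCycle (σ u) (σ v) ↔ g.SameCycle u v := by
  rw [Perm.sameCycle_conj]
  simp

theorem len_conj (σ g : Perm V) (v : V) : len (σ * g * σ⁻¹) (σ v) = len g v := by
  unfold len cnt
  rw [← Equiv.sum_comp σ]
  refine sum_congr rfl fun w _ => ?_
  by_cases h : g.SameCycle v w <;> simp [same_conj, h]

theorem cyc_conj (σ g : Perm V) : cyc (σ * g * σ⁻¹) = cyc g := by
  unfold cyc
  symm
  refine Nat.card_congr (Quotient.congr σ fun a b => ?_)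
  exact (same_conj σ g a b).symm

end gen

theorem main : S_trans := by
  intro d L _ J t θ s hJ
  have key : ∀ v : Fin d → ZMod L,
      ∑ g, stirMass J t g * θ ^ cyc g * (open Classical in if len g v < s then (1:ℝ) else 0) =
      ∑ g, stirMass J t g * θ ^ cyc g *
        (open Classical in if len g (0 : Fin d → ZMod L) < s then 1 else 0) := by
    intro v
    let σ : Perm (Fin d → ZMod L) := Equiv.addRight v
    have hσ : ∀ x, σ x = x + v := fun x => rfl
    rw [← Equiv.sum_comp (MulAut.conj σ).toEquiv]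
    refine sum_congr rfl fun g _ => ?_
    have e1 : (MulAut.conj σ).toEquiv g = σ * g * σ⁻¹ := rfl
    have e2 : len (σ * g * σ⁻¹) v = len g 0 := by
      rw [← len_conj σ g 0, hσ, zero_add]
    rw [e1, stirMass_conj σ J (fun x y => by rw [hσ, hσ, hJ]), cyc_conj, e2]
  have h1 : ∑ g, stirMass J t g * θ ^ cyc g * (cnt fun v => len g v < s) =
      ∑ v : Fin d → ZMod L, ∑ g, stirMass J t g * θ ^ cyc g *
        (open Classical in if len g v < s then (1:ℝ) else 0) := by
    rw [sum_comm]
    refine sum_congr rfl fun g _ => ?_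
    unfold cnt
    rw [mul_sum]
  rw [h1, sum_congr rfl fun v _ => key v, sum_const, nsmul_eq_mul]
  congr 1
  rw [card_univ, Fintype.card_fun, ZMod.card, Fintype.card_fin]
  push_cast
  rfl

end Pool.Agent.W174.LR.TI
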